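import Mathlib
import Pool.Agent.Helper35.HC.StC

/-!
Project HC (MP_925021_gt), module VMJ: jets of the tangential coefficients `V_m` of `w = ∂_t u`.
-/

set_option autoImplicit false

namespace Pool.Agent.Helper64.HC

open Helper35.HC Helper35.HSF Helper35.MS Helper35.PI Helper35.PI2 Helper32.CL
open scoped ContDiff Manifold Topology ENNReal BigOperators
open MeasureTheory Set Filter

theorem hVMJ (hJHW : StJHW) (hG0 : StG0) (hG1 : StG1) (hG3 : StG3) (hJA : StJA)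
    (hJB : StJB) : StVMJ := by
  intro n N x₀ L u t₀ hG A T hA hT m
  obtain ⟨hwC, hw0, -, hwi⟩ := hJHW n N x₀ L u t₀ hG A T hA hT
  obtain ⟨hs, -, -, -⟩ := hG1 n N x₀ L u t₀ hG
  obtain ⟨hu3, -⟩ := hG3 n N x₀ L u t₀ hG
  have hsA : ∀ i j, A i j = A j i := fun i j => by rw [hA]; exact hs i j
  -- smoothness
  have h2le : (2 : WithTop ℕ∞) ≤ ((⊤ : ℕ∞) : WithTop ℕ∞) := by
    have : ((2 : ℕ∞) : WithTop ℕ∞) ≤ ((⊤ : ℕ∞) : WithTop ℕ∞) := WithTop.coe_le_coe.2 le_top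
    exact this
  have huC : ∀ j : Fin n, ContDiffAt ℝ ∞ (fun z => jg u z j) ((0 : EE n), t₀) := by
    intro j
    have h1 : ContDiffAt ℝ ∞ (fderiv ℝ u) ((0 : EE n), t₀) := by
      refine hG.smooth.fderiv_right ?_
      exact le_of_eq (by norm_num)
    exact h1.clm_apply contDiffAt_const
  have hwC2 : ContDiffAt ℝ 2 (jt u) ((0 : EE n), t₀) := hwC.of_le h2le
  have huC2 : ∀ j : Fin n, ContDiffAt ℝ 2 (fun z => jg u z j) ((0 : EE n), t₀) :=
    fun j => (huC j).of_le h2le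
  have hφC : ∀ j : Fin n, ContDiffAt ℝ ∞ (fun z => (inner ℝ (jt u z) (jg u z j) : ℝ))
      ((0 : EE n), t₀) := fun j => hwC.inner ℝ (huC j)
  have hφC2 : ∀ j : Fin n, ContDiffAt ℝ 2 (fun z => (inner ℝ (jt u z) (jg u z j) : ℝ))
      ((0 : EE n), t₀) := fun j => hwC2.inner ℝ (huC2 j)
  have hGC : ∀ j : Fin n, ContDiffAt ℝ ∞ (GIf x₀ L u m j) ((0 : EE n), t₀) :=
    fun j => (hG0 n N x₀ L u t₀ hG m j).1
  have hGC2 : ∀ j : Fin n, ContDiffAt ℝ 2 (GIf x₀ L u m j) ((0 : EE n), t₀) :=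
    fun j => (hGC j).of_le h2le
  have hpC2 : ∀ j : Fin n, ContDiffAt ℝ 2
      (fun z => GIf x₀ L u m j z * (inner ℝ (jt u z) (jg u z j) : ℝ)) ((0 : EE n), t₀) :=
    fun j => (hGC2 j).mul (hφC2 j)
  -- values
  have hu0 : ∀ j, jg u ((0 : EE n), t₀) j = 0 := hG.du0
  have hφ0 : ∀ j : Fin n, (inner ℝ (jt u ((0 : EE n), t₀)) (jg u ((0 : EE n), t₀) j) : ℝ) = 0 := by
    intro j; rw [hu0 j, inner_zero_right]
  have hφg : ∀ j k : Fin n, jg (fun z => (inner ℝ (jt u z) (jg u z j) : ℝ)) ((0 : EE n), t₀) k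
      = inner ℝ (Hv A) (A j k) := by
    intro j k
    rw [((hJB n N ((0 : EE n), t₀)).2 (jt u) (fun z => jg u z j) hwC2 (huC2 j)).1 k]
    show (inner ℝ (jg (jt u) (0, t₀) k) (jg u (0, t₀) j) : ℝ)
      + inner ℝ (jt u (0, t₀)) (jg (fun z => jg u z j) (0, t₀) k) = _
    rw [hu0 j, inner_zero_right, zero_add, hw0, hsA j k, hA]
    rfl
  have hφh : ∀ j : Fin n, jh (fun z => (inner ℝ (jt u z) (jg u z j) : ℝ)) ((0 : EE n), t₀)
      = -2 * ∑ k, inner ℝ (et T k) (A j k) := by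
    intro j
    rw [((hJB n N ((0 : EE n), t₀)).2 (jt u) (fun z => jg u z j) hwC2 (huC2 j)).2]
    rw [(hu3 j).2, inner_zero_right]
    show (inner ℝ (jh (jt u) (0, t₀)) (jg u (0, t₀) j) : ℝ) + 0 - 2 * _ = _
    rw [hu0 j, inner_zero_right]
    have : ∀ k : Fin n, (inner ℝ (jg (jt u) ((0 : EE n), t₀) k)
        (jg (fun z => jg u z j) ((0 : EE n), t₀) k) : ℝ) = inner ℝ (et T k) (A j k) := by
      intro k
      rw [(hwi k).2.1, hsA j k, hA]
      rfl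
    rw [Finset.sum_congr rfl (fun k _ => this k)]
    ring
  obtain ⟨hsg, hsh⟩ := (hJA n ℝ ((0 : EE n), t₀)).2.2.2.2 n
    (fun j z => GIf x₀ L u m j z * (inner ℝ (jt u z) (jg u z j) : ℝ)) hpC2
  have hpg : ∀ j k : Fin n, jg (fun z => GIf x₀ L u m j z * (inner ℝ (jt u z) (jg u z j) : ℝ))
      ((0 : EE n), t₀) k = (if m = j then 1 else 0) * inner ℝ (Hv A) (A j k) := by
    intro j k
    obtain ⟨-, h2, h3, -⟩ := hG0 n N x₀ L u t₀ hG m j
    rw [((hJB n N ((0 : EE n), t₀)).1 (GIf x₀ L u m j)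
      (fun z => (inner ℝ (jt u z) (jg u z j) : ℝ)) (hGC2 j) (hφC2 j)).1 k]
    simp only [h2, h3 k, hφg j k, hφ0 j]
    ring
  have hph : ∀ j : Fin n, jh (fun z => GIf x₀ L u m j z * (inner ℝ (jt u z) (jg u z j) : ℝ))
      ((0 : EE n), t₀) = (if m = j then 1 else 0) * (-2 * ∑ k, inner ℝ (et T k) (A j k)) := by
    intro j
    obtain ⟨-, h2, h3, -⟩ := hG0 n N x₀ L u t₀ hG m j
    rw [((hJB n N ((0 : EE n), t₀)).1 (GIf x₀ L u m j)
      (fun z => (inner ℝ (jt u z) (jg u z j) : ℝ)) (hGC2 j) (hφC2 j)).2]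
    simp only [h2, h3, hφh j, hφ0 j, zero_mul, Finset.sum_const_zero, mul_zero, zero_add,
      sub_zero]
  refine ⟨?_, ?_, ?_, ?_⟩
  · show ContDiffAt ℝ ∞ (fun z => ∑ j, GIf x₀ L u m j z * (inner ℝ (jt u z) (jg u z j) : ℝ))
      ((0 : EE n), t₀)
    exact ContDiffAt.sum fun j _ => (hGC j).mul (hφC j)
  · show ∑ j, GIf x₀ L u m j ((0 : EE n), t₀)
      * (inner ℝ (jt u ((0 : EE n), t₀)) (jg u ((0 : EE n), t₀) j) : ℝ) = 0
    exact Finset.sum_eq_zero fun j _ => by rw [hφ0 j, mul_zero]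
  · intro l
    show jg (fun z => ∑ j, GIf x₀ L u m j z * (inner ℝ (jt u z) (jg u z j) : ℝ))
      ((0 : EE n), t₀) l = _
    rw [hsg l, Finset.sum_congr rfl (fun j _ => hpg j l)]
    simp
  · show jh (fun z => ∑ j, GIf x₀ L u m j z * (inner ℝ (jt u z) (jg u z j) : ℝ))
      ((0 : EE n), t₀) = _
    rw [hsh, Finset.sum_congr rfl (fun j _ => hph j)]
    simp

end Pool.Agent.Helper64.HC
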