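import Mathlib
import Pool.Agent.Helper35.HC.StF

/-!
Project HC (MP_925021_gt), module LMN: the rescaled flow converges.
-/

set_option autoImplicit false

namespace Pool.Agent.Helper64.HC

open Helper35.HC Helper35.HSF Helper35.MS Helper35.PI Helper35.PI2 Helper32.CL
open scoped ContDiff Manifold Topology ENNReal BigOperators
open MeasureTheory Set Filter

/-- minus the remaining distance -/
private noncomputable def GaL (T K β s : ℝ) : ℝ := -(K / β) * (T - s) ^ β

private lemma GaL_deriv (T K β s : ℝ) (hβ : 0 < β) (hs : s < T) :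
    HasDerivAt (GaL T K β) (K * (T - s) ^ (β - 1)) s := by
  have h0 : 0 < T - s := by linarith
  have h1 : HasDerivAt (fun s : ℝ => T - s) (-1) s := by
    simpa using (hasDerivAt_id s).const_sub T
  have h3 : HasDerivAt (fun s : ℝ => (T - s) ^ β)
      (-1 * β * (T - s) ^ (β - 1)) s := h1.rpow_const (Or.inl h0.ne')
  have h4 := h3.const_mul (-(K / β))
  have e : -(K / β) * (-1 * β * (T - s) ^ (β - 1)) = K * (T - s) ^ (β - 1) := by
    field_simp
  rw [e] at h4
  exact h4

private lemma a_deriv (n : ℕ) (hn : 1 ≤ n) (T s : ℝ) (hs : s < T) :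
    HasDerivAt (fun s : ℝ => 1 / Real.sqrt (2 * n * (T - s)))
      (1 / Real.sqrt (2 * n * (T - s)) * (1 / (2 * (T - s)))) s := by
  have h0 : 0 < T - s := by linarith
  have hn' : (0 : ℝ) < n := by exact_mod_cast hn
  have hg : 0 < 2 * (n : ℝ) * (T - s) := by positivity
  have h1 : HasDerivAt (fun s : ℝ => 2 * (n : ℝ) * (T - s)) (2 * (n : ℝ) * (-1)) s := by
    have : HasDerivAt (fun s : ℝ => T - s) (-1) s := by
      simpa using (hasDerivAt_id s).const_sub T
    exact this.const_mul _
  have h2 : HasDerivAt (fun s : ℝ => Real.sqrt (2 * n * (T - s)))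
      (2 * (n : ℝ) * (-1) / (2 * Real.sqrt (2 * n * (T - s)))) s := h1.sqrt hg.ne'
  have hr : 0 < Real.sqrt (2 * n * (T - s)) := Real.sqrt_pos.mpr hg
  have h3 := h2.inv hr.ne'
  have hrr : Real.sqrt (2 * n * (T - s)) ^ 2 = 2 * n * (T - s) := Real.sq_sqrt hg.le
  have e : -(2 * (n : ℝ) * (-1) / (2 * Real.sqrt (2 * n * (T - s))))
      / Real.sqrt (2 * n * (T - s)) ^ 2 =
      1 / Real.sqrt (2 * n * (T - s)) * (1 / (2 * (T - s))) := by
    rw [hrr]
    field_simp
  rw [e] at h3
  have e2 : (fun s : ℝ => 1 / Real.sqrt (2 * n * (T - s))) =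
      (fun s : ℝ => Real.sqrt (2 * n * (T - s)))⁻¹ := by
    funext s
    simp
  rw [e2]
  exact h3

private lemma speedK (n : ℕ) (C β τ h : ℝ) (hτ : 0 < τ)
    (hu : h ≤ C * τ ^ (β - 1 / 2)) :
    1 / Real.sqrt (2 * n * τ) * h ≤ C / Real.sqrt (2 * n) * τ ^ (β - 1) := by
  have h2n : (0 : ℝ) ≤ 2 * n := by positivity
  rw [Real.sqrt_mul h2n]
  have hs : τ ^ (β - 1) = (Real.sqrt τ)⁻¹ * τ ^ (β - 1 / 2) := by
    rw [Real.sqrt_eq_rpow, ← Real.rpow_neg hτ.le, ← Real.rpow_add hτ]
    congr 1
    ring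
  rw [hs]
  calc 1 / (Real.sqrt (2 * n) * Real.sqrt τ) * h
      ≤ 1 / (Real.sqrt (2 * n) * Real.sqrt τ) * (C * τ ^ (β - 1 / 2)) :=
        mul_le_mul_of_nonneg_left hu (by positivity)
    _ = C / Real.sqrt (2 * n) * ((Real.sqrt τ)⁻¹ * τ ^ (β - 1 / 2)) := by
        rw [one_div, mul_inv, div_eq_mul_inv]
        ring

/-- LMN. The rescaled flow converges. -/
theorem hLMN : StLMN := by
  intro n hn1 N M _ _ _ T F hF x C β ts hC hβ hts hyp
  have hJ : ∀ t ∈ Ico ts T, t ∈ Ioo 0 T := fun t ht => ⟨hts.1.trans_le ht.1, ht.2⟩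
  have hn' : (0 : ℝ) < n := by exact_mod_cast hn1
  set K := C / Real.sqrt (2 * n) with hK
  have hK0 : 0 < K := div_pos hC (Real.sqrt_pos.mpr (by positivity))
  set Φ : M → ℝ → EE N := fun q t => (1 / Real.sqrt (2 * n * (T - t))) • (F q t - x) with hΦ
  have hder : ∀ q : M, ∀ t ∈ Ico ts T, HasDerivAt (fun t => Φ q t)
      ((1 / Real.sqrt (2 * n * (T - t))) •
        (HH (n := n) F q t + (1 / (2 * (T - t))) • (F q t - x))) t := by
    intro q t ht
    have h1 := (a_deriv n hn1 T t ht.2).smul ((hF.flow q t (hJ t ht)).sub_const x)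
    have e : (1 / Real.sqrt (2 * n * (T - t))) •
        (HH (n := n) F q t + (1 / (2 * (T - t))) • (F q t - x)) =
        (1 / Real.sqrt (2 * n * (T - t))) • HH (n := n) F q t +
        (1 / Real.sqrt (2 * n * (T - t)) * (1 / (2 * (T - t)))) • (F q t - x) := by
      rw [smul_add, smul_smul]
    rw [e]
    exact h1
  -- distance along the flow
  have hdist : ∀ q : M, ∀ t s : ℝ, ts ≤ t → t ≤ s → s < T →
      ‖Φ q s - Φ q t‖ ≤ GaL T K β s - GaL T K β t := by
    intro q t s h1 h2 h3
    have hin : ∀ x ∈ Icc t s, x ∈ Ico ts T := fun x hx => ⟨h1.trans hx.1, hx.2.trans_lt h3⟩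
    have key := image_norm_le_of_norm_deriv_right_le_deriv_boundary'
      (f := fun y => Φ q y - Φ q t)
      (f' := fun y => (1 / Real.sqrt (2 * n * (T - y))) •
        (HH (n := n) F q y + (1 / (2 * (T - y))) • (F q y - x))) (a := t) (b := s)
      (B := fun y => GaL T K β y - GaL T K β t)
      (B' := fun y => K * (T - y) ^ (β - 1))
      (fun y hy => (((hder q y (hin y hy)).sub_const
        (Φ q t)).continuousAt).continuousWithinAt)
      (fun y hy => (((hder q y (hin y (Ico_subset_Icc_self hy))).sub_const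
        (Φ q t)).hasDerivWithinAt))
      (by simp)
      (fun y hy => (((GaL_deriv T K β y hβ (hin y hy).2).sub_const
        (GaL T K β t)).continuousAt).continuousWithinAt)
      (fun y hy => ((GaL_deriv T K β y hβ (hin y (Ico_subset_Icc_self hy)).2).sub_const
        (GaL T K β t)).hasDerivWithinAt)
      (fun y hy => by
        have hy' := hin y (Ico_subset_Icc_self hy)
        have hy2 : 0 < T - y := by linarith [hy'.2]
        have hr : 0 < Real.sqrt (2 * n * (T - y)) := Real.sqrt_pos.mpr (by positivity)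
        rw [norm_smul, Real.norm_eq_abs, abs_of_pos (by positivity)]
        exact speedK n C β (T - y) _ hy2 (hyp y hy' q))
    exact key ⟨h2, le_rfl⟩
  have hGneg : ∀ s, s < T → GaL T K β s ≤ 0 := by
    intro s hs
    have h0 : 0 < T - s := by linarith
    unfold GaL
    have h2 : 0 ≤ K / β * (T - s) ^ β := by positivity
    linarith
  -- the sequence of times
  set u : ℕ → ℝ := fun n => T - (T - ts) / ((n : ℝ) + 1) with hu
  have hTts : 0 < T - ts := by linarith [hts.2]
  have hu1 : ∀ n, ts ≤ u n := by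
    intro n
    have hn : (0 : ℝ) < (n : ℝ) + 1 := by positivity
    have : (T - ts) / ((n : ℝ) + 1) ≤ T - ts := by
      rw [div_le_iff₀ hn]
      nlinarith [Nat.cast_nonneg (α := ℝ) n]
    simp only [hu]
    linarith
  have hu2 : ∀ n, u n < T := by
    intro n
    have : 0 < (T - ts) / ((n : ℝ) + 1) := by positivity
    simp only [hu]
    linarith
  have hu3 : ∀ n m, n ≤ m → u n ≤ u m := by
    intro n m h
    simp only [hu]
    have : (T - ts) / ((m : ℝ) + 1) ≤ (T - ts) / ((n : ℝ) + 1) := by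
      apply div_le_div_of_nonneg_left hTts.le (by positivity)
      have : (n : ℝ) ≤ m := by exact_mod_cast h
      linarith
    linarith
  have hu4 : Tendsto (fun n => T - u n) atTop (𝓝 0) := by
    have h1 : (fun n => T - u n) = fun n : ℕ => (T - ts) * (1 / ((n : ℝ) + 1)) := by
      funext n
      simp only [hu]
      ring
    rw [h1]
    have := tendsto_one_div_add_atTop_nhds_zero_nat (𝕜 := ℝ) |>.const_mul (T - ts)
    rwa [mul_zero] at this
  have hG0 : Tendsto (fun n => GaL T K β (u n)) atTop (𝓝 0) := by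
    unfold GaL
    have h2 : Tendsto (fun n => (T - u n) ^ β) atTop (𝓝 0) := by
      have h3 : 0 < β := hβ
      have := ((Real.continuous_rpow_const h3.le).tendsto 0).comp hu4
      rwa [Real.zero_rpow h3.ne'] at this
    have := h2.const_mul (-(K / β))
    rwa [mul_zero] at this
  -- the limit
  have hcau : ∀ q : M, CauchySeq (fun n => Φ q (u n)) := by
    intro q
    refine cauchySeq_of_le_tendsto_0 (fun n => 2 * (-GaL T K β (u n))) ?_ ?_
    · intro n m k hn hm
      have h1 := hdist q (u k) (u n) (hu1 k) (hu3 k n hn) (hu2 n)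
      have h2 := hdist q (u k) (u m) (hu1 k) (hu3 k m hm) (hu2 m)
      have h3 := hGneg (u n) (hu2 n)
      have h4 := hGneg (u m) (hu2 m)
      have h5 : dist (Φ q (u n)) (Φ q (u m)) ≤
          ‖Φ q (u n) - Φ q (u k)‖ + ‖Φ q (u m) - Φ q (u k)‖ := by
        rw [← dist_eq_norm, ← dist_eq_norm]
        exact dist_triangle_right _ _ _
      linarith
    · have := hG0.neg.const_mul 2
      simpa using this
  choose G hG using fun q => cauchySeq_tendsto_of_complete (hcau q)
  have hest : ∀ t ∈ Ico ts T, ∀ q, ‖Φ q t - G q‖ ≤ K / β * (T - t) ^ β := by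
    intro t ht q
    have hlim : Tendsto (fun n => ‖Φ q t - Φ q (u n)‖) atTop (𝓝 ‖Φ q t - G q‖) :=
      ((hG q).const_sub _).norm
    refine le_of_tendsto hlim ?_
    have h0 : ∀ᶠ n in atTop, T - u n < T - t := hu4.eventually (gt_mem_nhds (by linarith [ht.2]))
    filter_upwards [h0] with n hn
    have h1 := hdist q t (u n) ht.1 (by linarith) (hu2 n)
    have h2 := hGneg (u n) (hu2 n)
    rw [norm_sub_rev]
    have h3 : -GaL T K β t = K / β * (T - t) ^ β := by
      unfold GaL
      ring
    rw [← h3]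
    linarith
  have hcF : ∀ t ∈ Ioo 0 T, Continuous (fun q => F q t) := by
    intro t ht
    have h1 : ContinuousOn (fun z : M × ℝ => F z.1 z.2) (univ ×ˢ Ioo 0 T) :=
      hF.smooth.continuousOn
    have h2 : Continuous (fun q : M => ((q, t) : M × ℝ)) := by fun_prop
    exact h1.comp_continuous h2 (fun q => ⟨mem_univ _, ht⟩)
  refine ⟨G, K / β, ?_, by positivity, hest⟩
  -- continuity: uniform limit
  have hunif : TendstoUniformly (fun n q => Φ q (u n)) G atTop := by
    rw [Metric.tendstoUniformly_iff]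
    intro ε hε
    have h1 : ∀ᶠ n in atTop, -GaL T K β (u n) < ε := by
      have := hG0.neg
      rw [neg_zero] at this
      exact this.eventually (gt_mem_nhds hε)
    filter_upwards [h1] with n hn q
    rw [dist_comm, dist_eq_norm]
    refine lt_of_le_of_lt (hest (u n) ⟨hu1 n, hu2 n⟩ q) ?_
    have h3 : -GaL T K β (u n) = K / β * (T - u n) ^ β := by
      unfold GaL
      ring
    rw [← h3]
    exact hn
  refine hunif.continuous (Eventually.frequently (Eventually.of_forall ?_))
  intro m
  exact ((hcF (u m) (hJ _ ⟨hu1 m, hu2 m⟩)).sub continuous_const).const_smul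
    (1 / Real.sqrt (2 * n * (T - u m)) : ℝ)

end Pool.Agent.Helper64.HC
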